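import Pool.Agent.MP_57341d_ag.H48G.End

/-! Values of the Gamma function at rational points together with `π`. -/

open Module GPC73 GPC42 GPC72 GPCG53 GPCJ Complex NumberField ComplexEmbedding

namespace GPC48

/-- The numbers of weight zero of level `N`. -/
def GS (N : ℕ) : Set ℂ := {z | ∃ a : ℕ, 0 < a ∧ a < N ∧ z = Gamma (a / N) ^ 2 / Real.pi}

theorem GS_mono {n N : ℕ} (hN : 0 < N) (h : n ∣ N) : GS n ⊆ GS N := by
  obtain ⟨k, rfl⟩ := h
  rintro _ ⟨a, h0, h1, rfl⟩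
  have hk := Nat.pos_of_mul_pos_left hN
  refine ⟨a * k, by positivity, Nat.mul_lt_mul_of_pos_right h1 hk, ?_⟩
  rw [Nat.cast_mul, Nat.cast_mul, mul_div_mul_right _ _ (Nat.cast_ne_zero.2 hk.ne')]

theorem GS_cl (N : ℕ) [NeZero N] : M.closure (GS N) =
    M.closure (Set.range fun a : ZMod N => GG a ^ 2 / GG (2 * a)) := by
  refine subset_antisymm (M.closure_subset_closure_of_subset_closure ?_)
    (M.closure_subset_closure_of_subset_closure ?_)
  · rintro _ ⟨a, h0, h1, rfl⟩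
    have := dbl (fun a : ZMod N => 2 * a) GG_ne (fun a => mem_cl.1 (sub_cl (Set.range
      fun a : ZMod N => GG a ^ 2 / GG (2 * a)) ⟨a, rfl⟩)) a
    have e := ZMod.val_cast_of_lt h1
    rw [GG, if_neg ((ZMod.val_pos).1 (e.symm ▸ h0)), e] at this
    exact mem_cl.2 this
  · have h : ∀ a : ZMod N, IsAlgebraic (IntermediateField.adjoin ℚ (GS N)) (GG a) := fun a => by
      unfold GG
      split_ifs with h
      · exact isAlgebraic_one
      · exact mem_cl.1 (sub_cl _ ⟨_, (ZMod.val_pos).2 h, ZMod.val_lt a, rfl⟩)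
    rintro _ ⟨a, rfl⟩
    exact mem_cl.2 (((h a).pow 2).mul (h _).inv)

theorem rank_two (L : ℕ) [NeZero L] {n n' : ℕ} (h : n ∣ L) (h' : n' ∣ L) :
    M.cRk (GS n ∪ GS n') = finrank ℚ ((Od n).map (LinearMap.funLeft ℚ ℚ (ZMod.unitsMap h)) ⊔
      (Od n').map (LinearMap.funLeft ℚ ℚ (ZMod.unitsMap h')) : Submodule ℚ _) := by
  have := icr
  obtain ⟨E, _, _, _, _, hi, h3, z, s, hu, hs⟩ := cyc L
  obtain ⟨d, b₀, y, P⟩ := exists_pk hi h3
  let T : ((ZMod L)ˣ → ℚ) →ₗ[ℚ] Option (E →+* ℂ) → ℚ :=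
    { toFun := fun f o => o.elim 0 fun ψ => 2 * f (s b₀ * (s ψ)⁻¹)
      map_add' := fun f g => funext fun o => by cases o <;> simp [mul_add]
      map_smul' := fun c f => funext fun o => by cases o <;> simp [mul_left_comm] }
  have hT : Function.Injective T := (injective_iff_map_eq_zero T).2 fun f hf => funext fun u => by
    obtain ⟨ψ, h⟩ := hu (u⁻¹ * s b₀)
    simpa [T, h] using congrFun hf (some ψ)
  have key : ∀ n (h : n ∣ L) [NeZero n], ∃ u : ZMod n → Option (E →+* ℂ) → ℤ,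
      (∀ a, IsAlgebraic ℚ ((GG a ^ 2 / GG (2 * a)) ^ 4 / mon y (u a))) ∧
      Submodule.span ℚ (cst '' Set.range u) =
        ((Od n).map (LinearMap.funLeft ℚ ℚ (ZMod.unitsMap h))).map T ∧
      Submodule.span ℚ (cst '' Set.range u) ≤ O₀ E := fun n h _ => by
    obtain ⟨k, hk⟩ := id h
    have hs' : ∀ φ : E →+* ℂ, φ (z ^ k) = ze n ^ (ZMod.unitsMap h (s φ) : ZMod n).val := fun φ => by
      have e : ze L ^ k = ze n := by
        have : (k : ℂ) ≠ 0 := Nat.cast_ne_zero.2 fun e => NeZero.ne L (by rw [hk, e, mul_zero])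
        rw [ze, ze, ← exp_nat_mul, hk, Nat.cast_mul, mul_div_assoc', mul_comm (k : ℂ),
          mul_div_mul_right _ _ this]
      rw [map_pow, hs, pow_right_comm, e, ZMod.unitsMap_val, ← ZMod.natCast_val, ZMod.val_natCast,
        ← pow_eq_pow_mod _ prim.pow_eq_one]
    have e : Submodule.span ℚ (cst '' Set.range fun a => (2 : ℤ) • ep (fun φ => ZMod.unitsMap h
        (s φ)) b₀ a) = ((Od n).map (LinearMap.funLeft ℚ ℚ (ZMod.unitsMap h))).map T := by
      rw [← span_eps, Submodule.map_span, Submodule.map_span, ← Set.range_comp, ← Set.range_comp,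
        ← Set.range_comp]
      congr 2
      funext a o
      cases o <;> simp [T, cst, ep]
    refine ⟨_, fun a => ?_, e, e ▸ ?_⟩
    · refine Eq.subst (motive := IsAlgebraic ℚ) ?_
        ((sgn P hs' ((ZMod.unitsMap_surjective h).comp hu) a).pow 2)
      rw [mon_smul, div_pow, ← pow_mul]
      rfl
    rintro _ ⟨_, ⟨f, hf, rfl⟩, rfl⟩
    refine ⟨⟨fun ψ => ?_, fun ψ χ h => ?_⟩, rfl⟩
    · simp [T, s_conj hs', hf _]
    · rw [RingHom.ext fun x => h x IntermediateField.mem_top]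
  have : NeZero n := ⟨ne_zero_of_dvd_ne_zero (NeZero.ne L) h⟩
  have : NeZero n' := ⟨ne_zero_of_dvd_ne_zero (NeZero.ne L) h'⟩
  obtain ⟨u, a, b, c⟩ := key n h
  obtain ⟨u', a', b', c'⟩ := key n' h'
  have n0 : ∀ {n : ℕ} [NeZero n] (x : ZMod n), GG x ^ 2 / GG (2 * x) ≠ 0 := fun x =>
    div_ne_zero (pow_ne_zero _ (GG_ne _)) (GG_ne _)
  rw [← M.cRk_union_closure_eq, GS_cl, GS_cl, M.cRk_union_closure_eq,
    crk_mon P.ne (U := Set.range u ∪ Set.range u'), Set.image_union, Submodule.span_union,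
    P.zero _ (sup_le c c'), b, b', ← Submodule.map_sup,
    ← (Submodule.equivMapOfInjective T hT _).finrank_eq]
  · rintro _ (⟨x, rfl⟩ | ⟨x, rfl⟩)
    exacts [⟨_, .inl ⟨x, rfl⟩, a x⟩, ⟨_, .inr ⟨x, rfl⟩, a' x⟩]
  · rintro _ (⟨x, rfl⟩ | ⟨x, rfl⟩)
    exacts [⟨_, .inl ⟨x, rfl⟩, n0 x, a x⟩, ⟨_, .inr ⟨x, rfl⟩, n0 x, a' x⟩]

theorem crk_ins {S : Set ℂ} {x : ℂ} (h : x ∉ M.closure S) : M.cRk (insert x S) = M.cRk S + 1 := by
  have := icr
  obtain ⟨B, hB⟩ := M.exists_isBasis S (Set.subset_univ S)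
  rw [← hB.closure_eq_closure] at h
  rw [← hB.cardinalMk_eq_cRk, ← (hB.insert_isBasis_insert_of_notMem_closure h
    (Set.mem_univ x)).cardinalMk_eq_cRk, Cardinal.mk_insert fun a => h (sub_cl B a)]

theorem cl_gcd {N N' : ℕ} (h : 0 < N) (h' : 0 < N') {x : ℂ} (a : x ∈ M.closure (GS N))
    (a' : x ∈ M.closure (GS N')) : x ∈ M.closure (GS (N.gcd N')) := by
  have := icr
  by_contra b
  have : NeZero (N * N') := ⟨by positivity⟩
  have d := Nat.dvd_mul_right N N'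
  have d' := Nat.dvd_mul_left N' N
  have r := fun n (h : n ∣ N * N') => (congrArg M.cRk (Set.union_self _)).symm.trans
    ((rank_two _ h h).trans (congrArg (fun U : Submodule ℚ _ => (finrank ℚ U : Cardinal))
      (sup_idem _)))
  have h1 := (add_le_add_left (M.cRk_mono (Set.insert_subset (Set.mem_inter a a') (Set.subset_inter
    ((GS_mono h (N.gcd_dvd_left N')).trans (sub_cl _)) ((GS_mono h' (N.gcd_dvd_right N')).trans
      (sub_cl _))))) _).trans (M.cRk_inter_add_cRk_union_le _ _)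
  rw [crk_ins b, M.cRk_union_closure_eq, M.cRk_closure, M.cRk_closure, rank_two _ d d', r _ d,
    r _ d', r _ ((N.gcd_dvd_left N').trans d)] at h1
  have h2 := Submodule.finrank_mono (Od_inf d d')
  have h3 := Submodule.finrank_sup_add_finrank_inf_eq
    ((Od N).map (LinearMap.funLeft ℚ ℚ (ZMod.unitsMap d)))
    ((Od N').map (LinearMap.funLeft ℚ ℚ (ZMod.unitsMap d')))
  norm_cast at h1
  omega

theorem pi_tr {N : ℕ} (h : N ≤ 2) : (Real.pi : ℂ) ∉ M.closure (GS N) := fun a => by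
  have b : GS N ⊆ M.closure ∅ := by
    rintro _ ⟨k, h0, h1, rfl⟩
    obtain rfl : k = 1 := by omega
    obtain rfl : N = 2 := by omega
    rw [Nat.cast_one, Nat.cast_ofNat, Gamma_one_half_eq, one_div, cpow_ofNat_inv_pow,
      div_self pi_ne]
    exact mem_cl.2 isAlgebraic_one
  have c := mem_cl.1 (M.closure_subset_closure_of_subset_closure b a)
  rw [IntermediateField.isAlgebraic_adjoin_iff, Algebra.adjoin_empty,
    Subalgebra.isAlgebraic_bot_iff Rat.cast_injective] at c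
  exact tr_c (((isAlgebraic_natCast 2).mul c).mul (IsAlgebraic.of_pow two_pos
    (I_sq ▸ isAlgebraic_one.neg)))

theorem g2 : ∃ N₀ : ℕ, N₀ ≠ 1 ∧ N₀ ≠ 2 ∧ ∀ N : ℕ, 3 ≤ N →
    Algebra.trdeg ℚ (IntermediateField.adjoin ℚ (insert (Real.pi : ℂ)
      {z : ℂ | ∃ a : ℕ, 0 < a ∧ a < N ∧ z = Gamma (a / N)})) =
        (N.totient / 2 + if N₀ ∣ N then 0 else 1 : ℕ) := by
  have := icr
  obtain ⟨N₀, h1, h2, h⟩ : ∃ N₀ : ℕ, N₀ ≠ 1 ∧ N₀ ≠ 2 ∧ ∀ N, 0 < N →
      ((Real.pi : ℂ) ∈ M.closure (GS N) ↔ N₀ ∣ N) := by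
    classical
    by_cases h : ∃ N, 0 < N ∧ (Real.pi : ℂ) ∈ M.closure (GS N)
    · obtain ⟨p, b⟩ := Nat.find_spec h
      refine ⟨Nat.find h, fun e => pi_tr (by omega) b, fun e => pi_tr e.le b, fun N hN =>
        ⟨fun a => ?_, fun a => M.closure_subset_closure (GS_mono hN a) b⟩⟩
      have := Nat.find_min' h ⟨Nat.gcd_pos_of_pos_left N p, cl_gcd p hN b a⟩
      exact le_antisymm (Nat.gcd_le_left N p) this ▸ Nat.gcd_dvd_right _ _
    · exact ⟨0, by simp, by simp, fun N hN => iff_of_false (fun a => h ⟨N, hN, a⟩) (by omega)⟩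
  refine ⟨N₀, h1, h2, fun N hN => ?_⟩
  have e : M.cRk (insert (Real.pi : ℂ) {z : ℂ | ∃ a : ℕ, 0 < a ∧ a < N ∧ z = Gamma (a / N)}) =
      M.cRk (insert (Real.pi : ℂ) (GS N)) := by
    refine le_antisymm (rk_le (Set.insert_subset (sub_cl _ (.inl rfl)) ?_))
      (rk_le (Set.insert_subset (sub_cl _ (.inl rfl)) ?_))
    · rintro _ ⟨a, h0, h1, rfl⟩
      have := (mem_cl.1 (sub_cl (insert (Real.pi : ℂ) (GS N)) (.inr ⟨a, h0, h1, rfl⟩))).mul
        (mem_cl.1 (sub_cl _ (.inl rfl)))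
      rw [div_mul_cancel₀ _ pi_ne] at this
      exact mem_cl.2 (this.of_pow two_pos)
    · rintro _ ⟨a, h0, h1, rfl⟩
      exact mem_cl.2 (((mem_cl.1 (sub_cl _ (.inr ⟨a, h0, h1, rfl⟩))).pow 2).mul
        (mem_cl.1 (sub_cl _ (.inl rfl))).inv)
  have g : M.cRk (GS N) = (N.totient / 2 : ℕ) := (trdeg_eq _).symm.trans (g1 hN)
  rw [trdeg_eq, e]
  split_ifs with a
  · rw [← M.cRk_insert_closure_eq, Set.insert_eq_of_mem ((h N (by omega)).2 a), M.cRk_closure, g,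
      add_zero]
  · rw [crk_ins (mt (h N (by omega)).1 a), g, Nat.cast_add_one]

end GPC48
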