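import Pool.Agent.MP_57341d_ag.H36W.G2

/-! The squares of the Gamma values times a power of `π`. -/

open GPC72 Complex

namespace GPC48

theorem g3_zpow {K : IntermediateField ℚ ℂ} {x : ℂ} (h : IsAlgebraic K x) (k : ℤ) :
    IsAlgebraic K (x ^ k) := by
  cases k with
  | ofNat n => simpa using h.pow n
  | negSucc n =>
    rw [zpow_negSucc]
    exact (h.pow _).inv

theorem g3_of_zpow {K : IntermediateField ℚ ℂ} {x : ℂ} {k : ℤ} (hk : k ≠ 0)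
    (h : IsAlgebraic K (x ^ k)) : IsAlgebraic K x := by
  cases k with
  | ofNat n =>
    exact IsAlgebraic.of_pow (n := n) (Nat.pos_of_ne_zero fun e => hk (by simp [e]))
      (by simpa using h)
  | negSucc n =>
    rw [zpow_negSucc] at h
    exact (IsAlgebraic.inv_iff.1 h).of_pow (Nat.succ_pos n)

theorem g3_pi {N : ℕ} (hN : 3 ≤ N) {k : ℤ} (hk : k ≠ -1) :
    IsAlgebraic (IntermediateField.adjoin ℚ {z : ℂ | ∃ a : ℕ, 0 < a ∧ a < N ∧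
      z = Gamma (a / N) ^ 2 * (Real.pi : ℂ) ^ k}) (Real.pi : ℂ) := by
  have : NeZero N := ⟨by omega⟩
  have : Fact (1 < N) := ⟨by omega⟩
  have m : ∀ a : ZMod N, a ≠ 0 → IsAlgebraic (IntermediateField.adjoin ℚ {z : ℂ | ∃ a : ℕ, 0 < a ∧
      a < N ∧ z = Gamma (a / N) ^ 2 * (Real.pi : ℂ) ^ k}) (GG a * (Real.pi : ℂ) ^ (k + 1)) := by
    intro a ha
    rw [GG, if_neg ha, zpow_add_one₀ pi_ne, mul_comm _ (Real.pi : ℂ), ← mul_assoc,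
      div_mul_cancel₀ _ pi_ne]
    exact mem_cl.1 (sub_cl _ ⟨_, (ZMod.val_pos).2 ha, ZMod.val_lt a, rfl⟩)
  have h1 := (m 1 one_ne_zero).mul (m (-1) (neg_ne_zero.2 one_ne_zero))
  have h2 := h1.mul ((GG_neg (1 : ZMod N)).tower_top _).inv
  have n1 := GG_ne (1 : ZMod N)
  have n2 := GG_ne (-1 : ZMod N)
  have e : GG (1 : ZMod N) * (Real.pi : ℂ) ^ (k + 1) * (GG (-1 : ZMod N) * (Real.pi : ℂ) ^ (k + 1)) *
      (GG (1 : ZMod N) * GG (-1 : ZMod N))⁻¹ = ((Real.pi : ℂ) ^ (k + 1)) ^ 2 := by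
    field_simp
  rw [e] at h2
  exact g3_of_zpow (by omega) (h2.of_pow two_pos)

theorem g3 : ∃ N₀ : ℕ, N₀ ≠ 1 ∧ N₀ ≠ 2 ∧ ∀ N : ℕ, 3 ≤ N → ∀ k : ℤ,
    Algebra.trdeg ℚ (IntermediateField.adjoin ℚ {z : ℂ | ∃ a : ℕ, 0 < a ∧ a < N ∧
      z = Gamma (a / N) ^ 2 * (Real.pi : ℂ) ^ k}) =
        (N.totient / 2 + if k = -1 ∨ N₀ ∣ N then 0 else 1 : ℕ) := by
  obtain ⟨N₀, h1, h2, h⟩ := g2
  refine ⟨N₀, h1, h2, fun N hN k => ?_⟩
  by_cases hk : k = -1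
  · subst hk
    have e : ∀ z : ℂ, z * (Real.pi : ℂ) ^ (-1 : ℤ) = z / Real.pi := fun z => by
      rw [zpow_neg_one, div_eq_mul_inv]
    have e2 : {z : ℂ | ∃ a : ℕ, 0 < a ∧ a < N ∧ z = Gamma (a / N) ^ 2 * (Real.pi : ℂ) ^ (-1 : ℤ)} =
        {z : ℂ | ∃ a : ℕ, 0 < a ∧ a < N ∧ z = Gamma (a / N) ^ 2 / (Real.pi : ℂ)} := by
      simp only [e]
    rw [e2, if_pos (Or.inl rfl), add_zero]
    exact g1 hN
  · simp only [hk, false_or]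
    rw [← h N hN, trdeg_eq, trdeg_eq]
    refine le_antisymm (rk_le ?_) (rk_le (Set.insert_subset (mem_cl.2 (g3_pi hN hk)) ?_))
    · rintro _ ⟨a, h0, h1, rfl⟩
      exact mem_cl.2 (((mem_cl.1 (sub_cl _ (.inr ⟨a, h0, h1, rfl⟩))).pow 2).mul
        (g3_zpow (mem_cl.1 (sub_cl _ (.inl rfl))) k))
    · rintro _ ⟨a, h0, h1, rfl⟩
      have := (mem_cl.1 (sub_cl {z : ℂ | ∃ a : ℕ, 0 < a ∧ a < N ∧
        z = Gamma (a / N) ^ 2 * (Real.pi : ℂ) ^ k} ⟨a, h0, h1, rfl⟩)).mul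
          (g3_zpow (g3_pi hN hk) k).inv
      rw [mul_inv_cancel_right₀ (zpow_ne_zero k pi_ne)] at this
      exact mem_cl.2 (this.of_pow two_pos)

end GPC48
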